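import Mathlib

/-!
The number of edges of a graph without four-cycles.
-/

namespace Pool.Agent.Lib.MP_bf4c0e_coT

open Finset

theorem kst_num {E m : ℝ} (hm : 0 ≤ m) (h : E ^ 2 ≤ m * (E + m ^ 2)) (hm1 : m = 0 ∨ 1 ≤ m) :
    E ≤ 2 * Real.sqrt m ^ 3 := by
  obtain ⟨s, hs⟩ : ∃ s, s = Real.sqrt m := ⟨_, rfl⟩
  have hs0 : 0 ≤ s := hs ▸ Real.sqrt_nonneg _
  have hs2 : s ^ 2 = m := by rw [hs]; exact Real.sq_sqrt hm
  rw [← hs]
  rcases hm1 with h0 | h1
  · rw [h0] at h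
    have h2 : E ^ 2 ≤ 0 := by linarith
    have h3 : E = 0 := by
      have := sq_nonneg E
      exact pow_eq_zero_iff (two_ne_zero) |>.mp (le_antisymm h2 this)
    rw [h3]; positivity
  · have hs1 : 1 ≤ s := by
      by_contra hcon
      push Not at hcon
      nlinarith
    by_contra hcon
    push Not at hcon
    rw [← hs2] at h
    -- E > 2 s^3
    have h2 : s ^ 2 ≤ s ^ 3 := pow_le_pow_right₀ hs1 (by norm_num)
    have h3 : 0 ≤ s ^ 3 := by positivity
    have h4 : s ^ 3 < E - s ^ 2 := by linarith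
    have h5 : s ^ 3 * s ^ 3 < E * (E - s ^ 2) := by
      have h6 : s ^ 3 < E := by linarith
      nlinarith
    nlinarith

theorem kst {V : Type*} [DecidableEq V] (N : Finset V) (R : V → V → Prop) [DecidableRel R]
    (h : ∀ y y' z z', y ≠ y' → R y z → R y' z → R y z' → R y' z' → z = z') :
    (((N ×ˢ N).filter (fun p => R p.1 p.2)).card : ℝ) ≤ 2 * Real.sqrt N.card ^ 3 := by
  let e : V → V → ℝ := fun y z => if R y z then 1 else 0
  have hE : (((N ×ˢ N).filter (fun p => R p.1 p.2)).card : ℝ) = ∑ z ∈ N, ∑ y ∈ N, e y z := by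
    rw [Finset.sum_comm, ← Finset.sum_product' (f := e), ← Finset.sum_boole]
  obtain ⟨E, hE'⟩ : ∃ E, E = ∑ z ∈ N, ∑ y ∈ N, e y z := ⟨_, rfl⟩
  rw [hE, ← hE']
  have h1 : E ^ 2 ≤ (N.card : ℝ) * ∑ z ∈ N, (∑ y ∈ N, e y z) ^ 2 := by
    rw [hE']; exact sq_sum_le_card_mul_sum_sq
  have h2 : ∑ z ∈ N, (∑ y ∈ N, e y z) ^ 2 = ∑ y ∈ N, ∑ y' ∈ N, ∑ z ∈ N, e y z * e y' z := by
    have h3 : ∀ z, (∑ y ∈ N, e y z) ^ 2 = ∑ y ∈ N, ∑ y' ∈ N, e y z * e y' z := by
      intro z
      rw [sq, Finset.sum_mul_sum]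
    rw [Finset.sum_congr rfl (fun z _ => h3 z), Finset.sum_comm]
    exact Finset.sum_congr rfl fun y _ => Finset.sum_comm
  have h3 : ∀ y ∈ N, ∀ y' ∈ N, ∑ z ∈ N, e y z * e y' z ≤
      1 + if y = y' then ∑ z ∈ N, e y z else 0 := by
    intro y _ y' _
    have h4 : ∀ z, e y z * e y' z = if R y z ∧ R y' z then (1 : ℝ) else 0 := by
      intro z
      simp only [e]
      by_cases a1 : R y z <;> by_cases a2 : R y' z <;> simp [a1, a2]
    rw [Finset.sum_congr rfl (fun z _ => h4 z), Finset.sum_boole]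
    by_cases hy : y = y'
    · subst hy
      rw [if_pos rfl]
      have h5 : ∑ z ∈ N, e y z = ((N.filter (fun z => R y z ∧ R y z)).card : ℝ) := by
        rw [← Finset.sum_boole]
        refine Finset.sum_congr rfl fun z _ => ?_
        simp only [e, and_self]
      rw [h5]; linarith
    · rw [if_neg hy, add_zero]
      have h5 : (N.filter (fun z => R y z ∧ R y' z)).card ≤ 1 := by
        rw [Finset.card_le_one]
        intro z hz z' hz'
        rw [mem_filter] at hz hz'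
        exact h y y' z z' hy hz.2.1 hz.2.2 hz'.2.1 hz'.2.2
      exact_mod_cast h5
  have h4 : ∑ z ∈ N, (∑ y ∈ N, e y z) ^ 2 ≤ E + (N.card : ℝ) ^ 2 := by
    rw [h2]
    refine (Finset.sum_le_sum fun y hy => Finset.sum_le_sum fun y' hy' => h3 y hy y' hy').trans ?_
    have h5 : ∀ y ∈ N, ∑ y' ∈ N, (1 + if y = y' then ∑ z ∈ N, e y z else 0) =
        (N.card : ℝ) + ∑ z ∈ N, e y z := by
      intro y hy
      rw [Finset.sum_add_distrib, Finset.sum_ite_eq, if_pos hy]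
      simp
    rw [Finset.sum_congr rfl h5, Finset.sum_add_distrib, Finset.sum_const, nsmul_eq_mul,
      Finset.sum_comm, ← hE']
    nlinarith
  have h5 : E ^ 2 ≤ (N.card : ℝ) * (E + (N.card : ℝ) ^ 2) :=
    h1.trans (mul_le_mul_of_nonneg_left h4 (Nat.cast_nonneg _))
  refine kst_num (Nat.cast_nonneg _) h5 ?_
  rcases Nat.eq_zero_or_pos N.card with h6 | h6
  · left; exact_mod_cast h6
  · right; exact_mod_cast h6

end Pool.Agent.Lib.MP_bf4c0e_coT
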