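import Mathlib

/-!
Monochromatic triangles of a colouring without monochromatic pentagons, and a smallest set of light
edges that meets all of them.
-/

namespace Pool.Agent.Lib.MP_bf4c0e_coT

open Finset

variable {V : Type*} [Fintype V] [DecidableEq V] {k : ℕ}

/-- `a, b, w` span a monochromatic triangle of the colouring `c`. -/
def Tri (c : V → V → Fin k) (a b w : V) : Prop :=
  a ≠ b ∧ b ≠ w ∧ a ≠ w ∧ c a b = c a w ∧ c a b = c b w

instance (c : V → V → Fin k) (a b w : V) : Decidable (Tri c a b w) := by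
  unfold Tri; infer_instance

/-- No monochromatic pentagon. -/
def No5 (c : V → V → Fin k) : Prop :=
  ∀ a b d e f : V, a ≠ b → a ≠ d → a ≠ e → a ≠ f → b ≠ d → b ≠ e → b ≠ f → d ≠ e → d ≠ f →
    e ≠ f → c a b = c b d → c b d = c d e → c d e = c e f → c e f = c f a → False

/-- The vertices that form a monochromatic triangle with `a, b`. -/
def wit (c : V → V → Fin k) (a b : V) : Finset V := univ.filter (fun w => Tri c a b w)

theorem mem_wit {c : V → V → Fin k} {a b w : V} : w ∈ wit c a b ↔ Tri c a b w := by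
  simp [wit]

omit [Fintype V] [DecidableEq V] in
theorem Tri.swap {c : V → V → Fin k} (hc : ∀ a b, c a b = c b a) {a b w : V}
    (h : Tri c a b w) : Tri c b a w := by
  obtain ⟨h1, h2, h3, h4, h5⟩ := h
  refine ⟨h1.symm, h3, h2, ?_, ?_⟩
  · rw [hc b a]; exact h5
  · rw [hc b a]; exact h4

omit [Fintype V] [DecidableEq V] in
theorem Tri.rot {c : V → V → Fin k} (hc : ∀ a b, c a b = c b a) {a b w : V}
    (h : Tri c a b w) : Tri c b w a := by
  obtain ⟨h1, h2, h3, h4, h5⟩ := h
  refine ⟨h2, h3.symm, h1.symm, ?_, ?_⟩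
  · rw [hc b a]; exact h5.symm
  · rw [hc w a, ← h4, h5]

theorem wit_swap {c : V → V → Fin k} (hc : ∀ a b, c a b = c b a) (a b : V) :
    wit c a b = wit c b a := by
  ext w
  rw [mem_wit, mem_wit]
  exact ⟨fun h => h.swap hc, fun h => h.swap hc⟩

omit [Fintype V] [DecidableEq V] in
/-- The key fact: in a monochromatic triangle `x, y, z` with a further vertex `v` forming a triangle
with `x, z`, and `w` forming a triangle with `x, y`, we have a pentagon if all five are distinct. -/
theorem pent1 {c : V → V → Fin k} (hc : ∀ a b, c a b = c b a) (h5 : No5 c) {x y z w v : V}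
    (h : Tri c x y z) (hw : Tri c x y w) (hv : Tri c x z v) (hwz : w ≠ z) (hvy : v ≠ y)
    (hwv : w ≠ v) : False := by
  obtain ⟨a1, a2, a3, a4, a5⟩ := h
  obtain ⟨b1, b2, b3, b4, b5⟩ := hw
  obtain ⟨d1, d2, d3, d4, d5⟩ := hv
  -- the pentagon w y z v x
  refine h5 w y z v x b2.symm hwz hwv b3.symm a2 hvy.symm a1.symm d2 d1.symm d3.symm ?_ ?_ ?_ ?_
  · rw [hc w y, ← b5, a5]
  · rw [← a5, a4, d5]
  · rw [← d5, d4, hc x v]
  · rw [hc v x, ← d4, ← a4, b4]

theorem light_or {c : V → V → Fin k} (hc : ∀ a b, c a b = c b a) (h5 : No5 c) {x y z : V}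
    (h : Tri c x y z) : (wit c x y).card ≤ 2 ∨ (wit c x z).card ≤ 2 := by
  by_contra hcon
  push Not at hcon
  obtain ⟨h1, h2⟩ := hcon
  have h3 : ∃ v ∈ wit c x z, v ≠ y := by
    by_contra h3
    push Not at h3
    have h4 : wit c x z ⊆ {y} := fun v hv => by
      rw [mem_singleton]; exact h3 v hv
    have h6 := card_le_card h4
    rw [card_singleton] at h6
    omega
  obtain ⟨v, hv, hvy⟩ := h3
  have h4 : ∃ w ∈ wit c x y, w ≠ z ∧ w ≠ v := by
    by_contra h4
    push Not at h4
    have h6 : wit c x y ⊆ {z, v} := fun w hw => by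
      rw [mem_insert, mem_singleton]
      by_cases h7 : w = z
      · exact Or.inl h7
      · exact Or.inr (h4 w hw h7)
    have h8 := (card_le_card h6).trans card_le_two
    omega
  obtain ⟨w, hw, hwz, hwv⟩ := h4
  exact pent1 hc h5 h (mem_wit.mp hw) (mem_wit.mp hv) hwz hvy hwv

/-- The properties of the edge set used below. -/
structure IsHit (c : V → V → Fin k) (B : V → V → Prop) : Prop where
  symm : ∀ a b, B a b → B b a
  ne : ∀ a b, B a b → a ≠ b
  light : ∀ a b, B a b → (wit c a b).card ≤ 2
  hit : ∀ a b w, Tri c a b w → B a b ∨ B b w ∨ B a w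
  c4 : ∀ x y u z, x ≠ u → y ≠ z → B x y → B y u → B u z → B z x →
    c x y = c y u → c y u = c u z → c u z = c z x → False
  noT : ∀ x y z, Tri c x y z → B x y → B y z → B x z → False

open Classical in
theorem exists_hit {c : V → V → Fin k} (hc : ∀ a b, c a b = c b a) (h5 : No5 c) :
    ∃ B : V → V → Prop, IsHit c B := by
  -- light edges
  let L : Finset (Sym2 V) := univ.filter (fun e => ∃ a b, e = s(a, b) ∧ a ≠ b ∧ (wit c a b).card ≤ 2)
  have hL : ∀ a b, s(a, b) ∈ L ↔ a ≠ b ∧ (wit c a b).card ≤ 2 := by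
    intro a b
    simp only [L, mem_filter, mem_univ, true_and]
    constructor
    · rintro ⟨a', b', h1, h2, h3⟩
      rw [Sym2.eq_iff] at h1
      rcases h1 with ⟨rfl, rfl⟩ | ⟨rfl, rfl⟩
      · exact ⟨h2, h3⟩
      · exact ⟨h2.symm, by rw [wit_swap hc]; exact h3⟩
    · rintro ⟨h1, h2⟩
      exact ⟨a, b, rfl, h1, h2⟩
  let H : Finset (Sym2 V) → Prop := fun B =>
    ∀ a b w, Tri c a b w → s(a, b) ∈ B ∨ s(b, w) ∈ B ∨ s(a, w) ∈ B
  have hHL : H L := by
    intro a b w h
    rcases light_or hc h5 h with h1 | h1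
    · exact Or.inl ((hL a b).mpr ⟨h.1, h1⟩)
    · exact Or.inr (Or.inr ((hL a w).mpr ⟨h.2.2.1, h1⟩))
  obtain ⟨B, hB, hmin⟩ := Finset.exists_min_image (L.powerset.filter H) (fun B => B.card)
    ⟨L, by rw [mem_filter, mem_powerset]; exact ⟨Subset.refl _, hHL⟩⟩
  rw [mem_filter, mem_powerset] at hB
  obtain ⟨hBL, hBH⟩ := hB
  have hmin' : ∀ B' : Finset (Sym2 V), B' ⊆ L → H B' → B.card ≤ B'.card := fun B' h1 h2 =>
    hmin B' (by rw [mem_filter, mem_powerset]; exact ⟨h1, h2⟩)
  -- private triangles
  have priv : ∀ a b, s(a, b) ∈ B → ∃ w, Tri c a b w ∧ s(a, w) ∉ B ∧ s(b, w) ∉ B := by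
    intro a b hab
    by_contra hcon
    push Not at hcon
    have h1 : H (B.erase s(a, b)) := by
      intro x y z ht
      -- if the triangle contains another edge of B we are done
      by_contra h2
      push Not at h2
      obtain ⟨g1, g2, g3⟩ := h2
      rw [mem_erase, not_and] at g1 g2 g3
      have e1 : s(x, y) ∈ B → s(x, y) = s(a, b) := fun h => by
        by_contra h'; exact g1 h' h
      have e2 : s(y, z) ∈ B → s(y, z) = s(a, b) := fun h => by
        by_contra h'; exact g2 h' h
      have e3 : s(x, z) ∈ B → s(x, z) = s(a, b) := fun h => by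
        by_contra h'; exact g3 h' h
      have key : ∀ p r t : V, Tri c p r t → s(p, r) = s(a, b) →
          (s(p, t) ∈ B → s(p, t) = s(a, b)) → (s(r, t) ∈ B → s(r, t) = s(a, b)) → False := by
        intro p r t hT h3 h4 h6
        have hpt : s(p, t) ∉ B := fun h => by
          have h7 := h4 h
          rw [← h3, Sym2.eq_iff] at h7
          rcases h7 with ⟨-, h7⟩ | ⟨-, h7⟩
          · exact hT.2.1 h7.symm
          · exact hT.2.2.1 h7.symm
        have hrt : s(r, t) ∉ B := fun h => by
          have h7 := h6 h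
          rw [← h3, Sym2.eq_iff] at h7
          rcases h7 with ⟨h7, -⟩ | ⟨-, h7⟩
          · exact hT.1 h7.symm
          · exact hT.2.2.1 h7.symm
        rw [Sym2.eq_iff] at h3
        rcases h3 with ⟨rfl, rfl⟩ | ⟨rfl, rfl⟩
        · exact hrt (hcon t hT hpt)
        · exact hpt (hcon t (hT.swap hc) hrt)
      rcases hBH x y z ht with h | h | h
      · exact key x y z ht (e1 h) e3 e2
      · refine key y z x (ht.rot hc) (e2 h) ?_ ?_
        · rw [Sym2.eq_swap]; exact e1
        · rw [Sym2.eq_swap]; exact e3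
      · refine key x z y ((ht.swap hc).rot hc) (e3 h) e1 ?_
        · rw [Sym2.eq_swap]; exact e2
    have h2 := hmin' _ ((erase_subset _ _).trans hBL) h1
    have h3 := card_erase_lt_of_mem hab
    omega
  refine ⟨fun a b => s(a, b) ∈ B, ?_, ?_, ?_, hBH, ?_, ?_⟩
  · intro a b h
    rw [Sym2.eq_swap]; exact h
  · intro a b h
    exact ((hL a b).mp (hBL h)).1
  · intro a b h
    exact ((hL a b).mp (hBL h)).2
  · -- no four-cycle
    intro x y u z hxu hyz h1 h2 h3 h4 q1 q2 q3
    obtain ⟨w, hw, g1, g2⟩ := priv x y h1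
    have n1 := ((hL _ _).mp (hBL h1)).1
    have n2 := ((hL _ _).mp (hBL h2)).1
    have n3 := ((hL _ _).mp (hBL h3)).1
    have n4 := ((hL _ _).mp (hBL h4)).1
    have hwu : w ≠ u := by rintro rfl; exact g2 h2
    have hwz : w ≠ z := by rintro rfl; rw [Sym2.eq_swap] at g1; exact g1 h4
    obtain ⟨b1, b2, b3, b4, b5⟩ := hw
    refine h5 w y u z x b2.symm hwu hwz b3.symm n2 hyz n1.symm n3 hxu.symm n4 ?_ ?_ ?_ ?_
    · rw [hc w y, ← b5, q1]
    · exact q2
    · exact q3
    · rw [← q3, ← q2, ← q1, b4]
  · -- no triangle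
    intro x y z ht h1 h2 h3
    obtain ⟨w, hw, g1, g2⟩ := priv x y h1
    obtain ⟨w', hw', g3, g4⟩ := priv y z h2
    have hwz : w ≠ z := by rintro rfl; exact g1 h3
    have hwx : w' ≠ x := by rintro rfl; rw [Sym2.eq_swap] at g3; exact g3 h1
    have hww : w = w' := by
      by_contra hne
      exact pent1 hc h5 (ht.swap hc) (hw.swap hc) hw' hwz hwx hne
    subst hww
    -- K4 on x y z w
    have hT1 : Tri c x y w := hw
    have hT2 : Tri c y z w := hw'
    have hcxz : c x z = c x w := by rw [← ht.2.2.2.1, hT1.2.2.2.1]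
    have hT3 : Tri c x z w := ⟨ht.2.2.1, hT2.2.1, hT1.2.2.1, hcxz, by
      rw [hcxz, ← hT1.2.2.2.1, ht.2.2.2.2, ← hT2.2.2.2.2]⟩
    have w2 : wit c y z = {x, w} := by
      symm
      apply eq_of_subset_of_card_le
      · intro v hv
        rw [mem_insert, mem_singleton] at hv
        rw [mem_wit]
        rcases hv with rfl | rfl
        · exact ht.rot hc
        · exact hT2
      · rw [card_pair hT1.2.2.1]
        exact ((hL _ _).mp (hBL h2)).2
    have w3 : wit c x z = {y, w} := by
      symm
      apply eq_of_subset_of_card_le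
      · intro v hv
        rw [mem_insert, mem_singleton] at hv
        rw [mem_wit]
        rcases hv with rfl | rfl
        · exact (ht.swap hc).rot hc
        · exact hT3
      · rw [card_pair hT1.2.1]
        exact ((hL _ _).mp (hBL h3)).2
    have hzw : s(z, w) ∈ L := by
      rw [hL]
      refine ⟨hwz.symm, ?_⟩
      have h6 : wit c z w ⊆ {x, y} := by
        intro v hv
        rw [mem_wit] at hv
        rw [mem_insert, mem_singleton]
        by_contra hcon
        push Not at hcon
        -- triangle z w x, triangle z w v, triangle z x y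
        exact pent1 hc h5 ((hT3.rot hc)) hv ((ht.swap hc).rot hc |>.swap hc)
          hcon.1 hT1.2.1 hcon.2
      exact (card_le_card h6).trans card_le_two
    have hne1 : s(x, z) ≠ s(y, z) := by
      rw [Ne, Sym2.eq_iff]
      rintro (⟨h, -⟩ | ⟨h, -⟩)
      · exact ht.1 h
      · exact ht.2.2.1 h
    have hmem : s(z, w) ∉ B := by rw [Sym2.eq_swap]; intro h; rw [Sym2.eq_swap] at h; exact g4 h
    let B' : Finset (Sym2 V) := insert s(z, w) ((B.erase s(y, z)).erase s(x, z))
    have hB'L : B' ⊆ L := by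
      intro e he
      rw [mem_insert, mem_erase, mem_erase] at he
      rcases he with rfl | he
      · exact hzw
      · exact hBL he.2.2
    have hxy1 : s(x, y) ≠ s(y, z) := by
      rw [Ne, Sym2.eq_iff]
      rintro (⟨h, -⟩ | ⟨h, -⟩)
      · exact ht.1 h
      · exact ht.2.2.1 h
    have hxy2 : s(x, y) ≠ s(x, z) := by
      rw [Ne, Sym2.eq_iff]
      rintro (⟨-, h⟩ | ⟨h, -⟩)
      · exact ht.2.1 h
      · exact ht.2.2.1 h
    have hxyB : s(x, y) ∈ B' := by
      rw [mem_insert, mem_erase, mem_erase]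
      exact Or.inr ⟨hxy2, hxy1, h1⟩
    have hzwB : s(z, w) ∈ B' := mem_insert_self _ _
    -- an edge of B that is in a triangle a b v : that triangle meets B'
    have key : ∀ a b v, Tri c a b v → s(a, b) ∈ B →
        s(a, b) ∈ B' ∨ s(b, v) ∈ B' ∨ s(a, v) ∈ B' := by
      intro a b v hT hab
      by_cases e1 : s(a, b) = s(y, z)
      · have hv : v = x ∨ v = w := by
          have h7 : v ∈ wit c y z := by
            rw [mem_wit]
            rw [Sym2.eq_iff] at e1
            rcases e1 with ⟨rfl, rfl⟩ | ⟨rfl, rfl⟩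
            · exact hT
            · exact hT.swap hc
          rw [w2, mem_insert, mem_singleton] at h7
          exact h7
        rw [Sym2.eq_iff] at e1
        rcases hv with rfl | rfl
        · rcases e1 with ⟨rfl, rfl⟩ | ⟨rfl, rfl⟩
          · exact Or.inr (Or.inr (by rw [Sym2.eq_swap]; exact hxyB))
          · exact Or.inr (Or.inl (by rw [Sym2.eq_swap]; exact hxyB))
        · rcases e1 with ⟨rfl, rfl⟩ | ⟨rfl, rfl⟩
          · exact Or.inr (Or.inl hzwB)
          · exact Or.inr (Or.inr hzwB)
      · by_cases e2 : s(a, b) = s(x, z)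
        · have hv : v = y ∨ v = w := by
            have h7 : v ∈ wit c x z := by
              rw [mem_wit]
              rw [Sym2.eq_iff] at e2
              rcases e2 with ⟨rfl, rfl⟩ | ⟨rfl, rfl⟩
              · exact hT
              · exact hT.swap hc
            rw [w3, mem_insert, mem_singleton] at h7
            exact h7
          rw [Sym2.eq_iff] at e2
          rcases hv with rfl | rfl
          · rcases e2 with ⟨rfl, rfl⟩ | ⟨rfl, rfl⟩
            · exact Or.inr (Or.inr hxyB)
            · exact Or.inr (Or.inl hxyB)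
          · rcases e2 with ⟨rfl, rfl⟩ | ⟨rfl, rfl⟩
            · exact Or.inr (Or.inl hzwB)
            · exact Or.inr (Or.inr hzwB)
        · exact Or.inl (by rw [mem_insert, mem_erase, mem_erase]; exact Or.inr ⟨e2, e1, hab⟩)
    have hB'H : H B' := by
      intro a b v hT
      rcases hBH a b v hT with h | h | h
      · exact key a b v hT h
      · rcases key b v a (hT.rot hc) h with h' | h' | h'
        · exact Or.inr (Or.inl h')
        · exact Or.inr (Or.inr (by rw [Sym2.eq_swap]; exact h'))
        · exact Or.inl (by rw [Sym2.eq_swap]; exact h')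
      · rcases key a v b ((hT.swap hc).rot hc) h with h' | h' | h'
        · exact Or.inr (Or.inr h')
        · exact Or.inr (Or.inl (by rw [Sym2.eq_swap]; exact h'))
        · exact Or.inl h'
    have h6 := hmin' B' hB'L hB'H
    have h7 : B'.card ≤ ((B.erase s(y, z)).erase s(x, z)).card + 1 := card_insert_le _ _
    have h8 : ((B.erase s(y, z)).erase s(x, z)).card < (B.erase s(y, z)).card :=
      card_erase_lt_of_mem (by rw [mem_erase]; exact ⟨hne1, h3⟩)
    have h9 : (B.erase s(y, z)).card < B.card := card_erase_lt_of_mem h2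
    omega

end Pool.Agent.Lib.MP_bf4c0e_coT
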