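import Mathlib
import Pool.Agent.Lib.MP_bf4c0e_coT.Tri
import Pool.Agent.Lib.MP_bf4c0e_coT.Kst

/-!
Counting the configurations that have to be destroyed.
-/

namespace Pool.Agent.Lib.MP_bf4c0e_coT

open Finset

open Classical in
/-- The neighbours in `B`. -/
noncomputable def nb {V : Type*} [Fintype V] (B : V → V → Prop) (x : V) : Finset V :=
  univ.filter (fun y => B x y)

theorem mem_nb {V : Type*} [Fintype V] {B : V → V → Prop} {x y : V} : y ∈ nb B x ↔ B x y := by
  classical
  simp [nb]

variable {V : Type*} [Fintype V] [DecidableEq V] {k : ℕ}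

theorem IsHit.c4' {c : V → V → Fin k} {B : V → V → Prop} (hc : ∀ a b, c a b = c b a)
    (hB : IsHit c B) (i : Fin k) : ∀ y y' z z', y ≠ y' → (B y z ∧ c y z = i) →
      (B y' z ∧ c y' z = i) → (B y z' ∧ c y z' = i) → (B y' z' ∧ c y' z' = i) → z = z' := by
  intro y y' z z' hy h1 h2 h3 h4
  by_contra hz
  refine hB.c4 y z y' z' hy hz h1.1 (hB.symm _ _ h2.1) h4.1 (hB.symm _ _ h3.1) ?_ ?_ ?_
  · rw [h1.2, hc z y', h2.2]
  · rw [hc z y', h2.2, h4.2]
  · rw [h4.2, hc z' y, h3.2]

open Classical in
/-- Edges of `B` inside a set `N`. -/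
theorem card_pairs_le {c : V → V → Fin k} {B : V → V → Prop} (hc : ∀ a b, c a b = c b a)
    (hB : IsHit c B) (N : Finset V) :
    (((N ×ˢ N).filter (fun p => B p.1 p.2)).card : ℝ) ≤ k * (2 * Real.sqrt N.card ^ 3) := by
  have h1 : ((N ×ˢ N).filter (fun p => B p.1 p.2)).card =
      ∑ i : Fin k, (((N ×ˢ N).filter (fun p => B p.1 p.2)).filter
        (fun p => c p.1 p.2 = i)).card :=
    Finset.card_eq_sum_card_fiberwise (fun p _ => mem_univ _)
  rw [h1]
  push_cast
  have h2 : ∀ i : Fin k, ((((N ×ˢ N).filter (fun p => B p.1 p.2)).filter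
        (fun p => c p.1 p.2 = i)).card : ℝ) ≤ 2 * Real.sqrt N.card ^ 3 := by
    intro i
    rw [Finset.filter_filter]
    exact kst N (fun y z => B y z ∧ c y z = i) (hB.c4' hc i)
  calc _ ≤ ∑ _i : Fin k, (2 * Real.sqrt N.card ^ 3) := Finset.sum_le_sum fun i _ => h2 i
    _ = _ := by rw [Finset.sum_const, card_univ, Fintype.card_fin, nsmul_eq_mul]

theorem sum_deg_le {c : V → V → Fin k} {B : V → V → Prop} (hc : ∀ a b, c a b = c b a)
    (hB : IsHit c B) :
    ∑ x : V, ((nb B x).card : ℝ) ≤ k * (2 * Real.sqrt (Fintype.card V) ^ 3) := by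
  classical
  have h1 := card_pairs_le hc hB (univ : Finset V)
  rw [card_univ] at h1
  refine le_trans (le_of_eq ?_) h1
  rw [← Finset.sum_boole, Finset.sum_product]
  refine Finset.sum_congr rfl fun x _ => ?_
  rw [Finset.sum_boole]
  rfl

open Classical in
/-- The vertices of small degree in `B`. -/
noncomputable def low (B : V → V → Prop) (D : ℝ) : Finset V :=
  univ.filter (fun x => ((nb B x).card : ℝ) ≤ D)

theorem low_card {c : V → V → Fin k} {B : V → V → Prop} (hc : ∀ a b, c a b = c b a)
    (hB : IsHit c B) (hk : 1 ≤ k) (hn : 1 ≤ Fintype.card V) :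
    (Fintype.card V : ℝ) / 2 ≤ (low B (4 * k * Real.sqrt (Fintype.card V))).card := by
  classical
  obtain ⟨s, hs⟩ : ∃ s, s = Real.sqrt (Fintype.card V) := ⟨_, rfl⟩
  have hn' : (1 : ℝ) ≤ Fintype.card V := by exact_mod_cast hn
  have hk' : (1 : ℝ) ≤ k := by exact_mod_cast hk
  have hs2 : s ^ 2 = Fintype.card V := by rw [hs]; exact Real.sq_sqrt (by linarith)
  have hs0 : 0 < s := by rw [hs]; exact Real.sqrt_pos.mpr (by linarith)
  have h1 := sum_deg_le hc hB
  rw [← hs] at h1 ⊢
  obtain ⟨D, hD⟩ : ∃ D, D = 4 * k * s := ⟨_, rfl⟩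
  rw [← hD]
  have hD0 : 0 < D := by rw [hD]; positivity
  have h2 : ((univ.filter (fun x => ¬ ((nb B x).card : ℝ) ≤ D)).card : ℝ) * D ≤
      ∑ x : V, ((nb B x).card : ℝ) := by
    rw [← nsmul_eq_mul, ← Finset.sum_const]
    calc _ ≤ ∑ x ∈ univ.filter (fun x => ¬ ((nb B x).card : ℝ) ≤ D), ((nb B x).card : ℝ) := by
          refine Finset.sum_le_sum fun x hx => ?_
          rw [mem_filter] at hx
          exact (not_le.mp hx.2).le
      _ ≤ _ := Finset.sum_le_sum_of_subset_of_nonneg (filter_subset _ _)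
          fun _ _ _ => Nat.cast_nonneg _
  have h3 : (low B D).card + (univ.filter (fun x => ¬ ((nb B x).card : ℝ) ≤ D)).card =
      Fintype.card V := by
    rw [← card_univ, ← Finset.card_filter_add_card_filter_not (s := (univ : Finset V))
      (fun x => ((nb B x).card : ℝ) ≤ D)]
    rfl
  have h4 : ((low B D).card : ℝ) + (univ.filter (fun x => ¬ ((nb B x).card : ℝ) ≤ D)).card =
      Fintype.card V := by exact_mod_cast h3
  have h5 := h2.trans h1
  obtain ⟨m, hm⟩ : ∃ m : ℝ, m = (univ.filter (fun x => ¬ ((nb B x).card : ℝ) ≤ D)).card :=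
    ⟨_, rfl⟩
  rw [← hm] at h4 h5
  rw [hD] at h5
  have h6 : m ≤ s ^ 2 / 2 := by
    by_contra hcon
    push Not at hcon
    have h7 : s ^ 2 / 2 * (4 * k * s) < m * (4 * k * s) := by
      refine mul_lt_mul_of_pos_right hcon (by positivity)
    nlinarith
  rw [← hs2] at h4 ⊢
  linarith

open Classical in
/-- Triangles of `B` with a first vertex of small degree. -/
noncomputable def tri3 (B : V → V → Prop) (V0 : Finset V) : Finset (Σ _ : V, V × V) :=
  V0.sigma (fun x => (nb B x ×ˢ nb B x).filter (fun p => B p.1 p.2))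

theorem tri3_card {c : V → V → Fin k} {B : V → V → Prop} (hc : ∀ a b, c a b = c b a)
    (hB : IsHit c B) (D : ℝ) :
    ((tri3 B (low B D)).card : ℝ) ≤
      Fintype.card V * (k * (2 * Real.sqrt D ^ 3)) := by
  classical
  unfold tri3
  rw [card_sigma]
  push_cast
  have h1 : ∀ x ∈ low B D, (((nb B x ×ˢ nb B x).filter (fun p => B p.1 p.2)).card : ℝ) ≤
      k * (2 * Real.sqrt D ^ 3) := by
    intro x hx
    refine (card_pairs_le hc hB (nb B x)).trans ?_
    have h2 : ((nb B x).card : ℝ) ≤ D := (mem_filter.mp hx).2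
    have h3 : Real.sqrt (nb B x).card ≤ Real.sqrt D := Real.sqrt_le_sqrt h2
    have h4 : Real.sqrt (nb B x).card ^ 3 ≤ Real.sqrt D ^ 3 :=
      pow_le_pow_left₀ (Real.sqrt_nonneg _) h3 3
    have h5 : (0 : ℝ) ≤ k := Nat.cast_nonneg _
    refine mul_le_mul_of_nonneg_left ?_ h5
    linarith
  refine (Finset.sum_le_sum h1).trans ?_
  rw [Finset.sum_const, nsmul_eq_mul]
  refine mul_le_mul_of_nonneg_right ?_ (by positivity)
  exact_mod_cast card_le_univ _

/-- The six element sets that have to be destroyed. -/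
noncomputable def badA (c : V → V → Fin k) (B : V → V → Prop) (V0 : Finset V) :
    Finset (Finset V) :=
  (((tri3 B V0).sigma (fun t => wit c t.1 t.2.1 ×ˢ (wit c t.2.1 t.2.2 ×ˢ wit c t.1 t.2.2))).image
    (fun s => ({s.1.1, s.1.2.1, s.1.2.2, s.2.1, s.2.2.1, s.2.2.2} : Finset V))).filter
    (fun A => A.card = 6)

theorem badA_card {c : V → V → Fin k} {B : V → V → Prop} (hc : ∀ a b, c a b = c b a)
    (hB : IsHit c B) (D : ℝ) :
    ((badA c B (low B D)).card : ℝ) ≤ 8 * (Fintype.card V * (k * (2 * Real.sqrt D ^ 3))) := by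
  classical
  have h1 : (badA c B (low B D)).card ≤ 8 * (tri3 B (low B D)).card := by
    unfold badA
    refine (card_filter_le _ _).trans (card_image_le.trans ?_)
    rw [card_sigma]
    calc _ ≤ ∑ _t ∈ tri3 B (low B D), 8 := by
          refine Finset.sum_le_sum fun t ht => ?_
          rw [card_product, card_product]
          unfold tri3 at ht
          rw [mem_sigma, mem_filter, mem_product, mem_nb, mem_nb] at ht
          obtain ⟨-, ⟨h1, h2⟩, h3⟩ := ht
          have a1 := hB.light _ _ h1
          have a2 := hB.light _ _ h2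
          have a3 := hB.light _ _ h3
          calc _ ≤ 2 * (2 * 2) := Nat.mul_le_mul a1 (Nat.mul_le_mul a3 a2)
            _ = 8 := rfl
      _ = _ := by rw [Finset.sum_const, smul_eq_mul, mul_comm]
  have h2 : ((badA c B (low B D)).card : ℝ) ≤ 8 * (tri3 B (low B D)).card := by exact_mod_cast h1
  have h3 := tri3_card hc hB D
  linarith

/-- Pairs `(y, w)` that form monochromatic triangles with `x` and with `z`. -/
def stars (c : V → V → Fin k) (x z : V) : Finset (V × V) :=
  univ.filter (fun r => Tri c x r.1 r.2 ∧ Tri c z r.1 r.2 ∧ c x z ≠ c x r.1 ∧ x ≠ z)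

theorem stars_card {c : V → V → Fin k} (hc : ∀ a b, c a b = c b a) (h5 : No5 c) (x z : V) :
    (stars c x z).card ≤ 2 * k := by
  have h1 : (stars c x z).card =
      ∑ i : Fin k, ((stars c x z).filter (fun r => c x r.1 = i)).card :=
    Finset.card_eq_sum_card_fiberwise (fun p _ => mem_univ _)
  rw [h1]
  have h2 : ∀ i : Fin k, ((stars c x z).filter (fun r => c x r.1 = i)).card ≤ 2 := by
    intro i
    rcases ((stars c x z).filter (fun r => c x r.1 = i)).eq_empty_or_nonempty with h0 | ⟨r0, hr0⟩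
    · rw [h0, card_empty]; exact Nat.zero_le _
    · have h3 : (stars c x z).filter (fun r => c x r.1 = i) ⊆ {r0, (r0.2, r0.1)} := by
        intro r hr
        unfold stars at hr0 hr
        rw [mem_filter, mem_filter] at hr0 hr
        obtain ⟨⟨-, p1, p2, -, p3⟩, p4⟩ := hr0
        obtain ⟨⟨-, q1, q2, -, -⟩, q4⟩ := hr
        obtain ⟨y0, w0⟩ := r0
        obtain ⟨y, w⟩ := r
        simp only at p1 p2 p4 q1 q2 q4
        obtain ⟨a1, a2, a3, a4, a5⟩ := p1
        obtain ⟨b1, b2, b3, b4, b5⟩ := p2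
        -- a vertex t adjacent to x and z in colour i is y0 or w0
        have key : ∀ t, t ≠ x → t ≠ z → c x t = i → c t z = i → t = y0 ∨ t = w0 := by
          intro t ht1 ht2 ht3 ht4
          by_contra hcon
          push Not at hcon
          refine h5 w0 y0 x t z a2.symm a3.symm hcon.2.symm b3.symm a1.symm hcon.1.symm b1.symm
            ht1.symm p3 ht2 ?_ ?_ ?_ ?_
          · rw [hc w0 y0, ← a5, hc y0 x]
          · rw [hc y0 x, p4, ht3]
          · rw [ht3, ht4]
          · rw [ht4, ← b4, b5, ← a5, p4]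
        obtain ⟨d1, d2, d3, d4, d5⟩ := q1
        obtain ⟨e1, e2, e3, e4, e5⟩ := q2
        have hy := key y d1.symm e1.symm q4 (by rw [hc y z, e5, ← d5, q4])
        have hw := key w d3.symm e3.symm (by rw [← d4, q4]) (by rw [hc w z, ← e4, e5, ← d5, q4])
        rw [mem_insert, mem_singleton, Prod.mk.injEq, Prod.mk.injEq]
        rcases hy with rfl | rfl
        · rcases hw with rfl | rfl
          · exact absurd rfl d2
          · exact Or.inl ⟨rfl, rfl⟩
        · rcases hw with rfl | rfl
          · exact Or.inr ⟨rfl, rfl⟩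
          · exact absurd rfl d2
      refine (card_le_card h3).trans ?_
      exact card_le_two
  calc _ ≤ ∑ _i : Fin k, 2 := Finset.sum_le_sum fun i _ => h2 i
    _ = _ := by rw [Finset.sum_const, card_univ, Fintype.card_fin, smul_eq_mul, mul_comm]

open Classical in
/-- The five element sets that have to be destroyed. -/
noncomputable def badB (c : V → V → Fin k) (B : V → V → Prop) : Finset (Finset V) :=
  ((((univ : Finset (V × V)).filter (fun p => B p.1 p.2)).sigma
    (fun p => stars c p.1 p.2 ×ˢ wit c p.1 p.2)).image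
    (fun s => ({s.1.1, s.1.2, s.2.1.1, s.2.1.2, s.2.2} : Finset V))).filter (fun A => A.card = 5)

theorem badB_card {c : V → V → Fin k} {B : V → V → Prop} (hc : ∀ a b, c a b = c b a)
    (h5 : No5 c) (hB : IsHit c B) :
    ((badB c B).card : ℝ) ≤ 4 * k * (k * (2 * Real.sqrt (Fintype.card V) ^ 3)) := by
  classical
  have h1 : (badB c B).card ≤
      4 * k * ((univ : Finset (V × V)).filter (fun p => B p.1 p.2)).card := by
    unfold badB
    refine (card_filter_le _ _).trans (card_image_le.trans ?_)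
    rw [card_sigma]
    calc _ ≤ ∑ _t ∈ (univ : Finset (V × V)).filter (fun p => B p.1 p.2), 4 * k := by
          refine Finset.sum_le_sum fun t ht => ?_
          rw [card_product]
          rw [mem_filter] at ht
          have a1 := hB.light _ _ ht.2
          have a2 := stars_card hc h5 t.1 t.2
          calc _ ≤ (2 * k) * 2 := Nat.mul_le_mul a2 a1
            _ = 4 * k := by ring
      _ = _ := by rw [Finset.sum_const, smul_eq_mul, mul_comm]
  have h2 : ((badB c B).card : ℝ) ≤
      4 * k * ((univ : Finset (V × V)).filter (fun p => B p.1 p.2)).card := by exact_mod_cast h1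
  refine h2.trans (mul_le_mul_of_nonneg_left ?_ (by positivity))
  have h3 := card_pairs_le hc hB (univ : Finset V)
  rw [card_univ] at h3
  exact h3

end Pool.Agent.Lib.MP_bf4c0e_coT
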