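import Mathlib

/-!
Multicolour Ramsey numbers of the triangle: elementary facts.
-/

namespace Pool.Agent.Lib.MP_bf4c0e_coT

open Finset

/-- The numbers `m` such that every `k`-colouring of `K_m` has a monochromatic triangle. -/
def S3 (k : ℕ) : Set ℕ := {m : ℕ | ∀ c : Fin m → Fin m → Fin k, (∀ a b, c a b = c b a) →
  ∃ f : Fin 3 → Fin m, Function.Injective f ∧ ∀ i : Fin 3, c (f i) (f (i + 1)) = c (f 0) (f 1)}

/-- The numbers `m` such that every `k`-colouring of `K_m` has a monochromatic pentagon. -/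
def S5 (k : ℕ) : Set ℕ := {m : ℕ | ∀ c : Fin m → Fin m → Fin k, (∀ a b, c a b = c b a) →
  ∃ f : Fin 5 → Fin m, Function.Injective f ∧ ∀ i : Fin 5, c (f i) (f (i + 1)) = c (f 0) (f 1)}

/-- There is a `k`-colouring of `K_m` without monochromatic triangle. -/
def Free3 (k m : ℕ) : Prop := ∃ c : Fin m → Fin m → Fin k, (∀ a b, c a b = c b a) ∧
  ∀ a b d, a ≠ b → b ≠ d → a ≠ d → c a b = c b d → c a b = c a d → False

theorem notMem_of_free {k m : ℕ} (h : Free3 k m) : m ∉ S3 k := by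
  obtain ⟨c, hc, h⟩ := h
  intro hm
  obtain ⟨f, hf, h1⟩ := hm c hc
  have h2 := h1 1
  have h3 := h1 2
  have e1 : (1 : Fin 3) + 1 = 2 := rfl
  have e2 : (2 : Fin 3) + 1 = 0 := rfl
  rw [e1] at h2
  rw [e2] at h3
  refine h (f 0) (f 1) (f 2) ?_ ?_ ?_ h2.symm (by rw [hc (f 0) (f 2), h3])
  · intro h4; exact absurd (hf h4) (by decide)
  · intro h4; exact absurd (hf h4) (by decide)
  · intro h4; exact absurd (hf h4) (by decide)

theorem free_of_notMem {k m : ℕ} (h : m ∉ S3 k) : Free3 k m := by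
  unfold S3 at h
  rw [Set.mem_setOf_eq] at h
  push Not at h
  obtain ⟨c, hc, h⟩ := h
  refine ⟨c, hc, fun a b d h1 h2 h3 h4 h5 => ?_⟩
  obtain ⟨i, hi⟩ := h ![a, b, d] (by
    intro i j hij
    fin_cases i <;> fin_cases j <;> simp_all)
  apply hi
  fin_cases i
  · rfl
  · exact h4.symm
  · show c d a = c a b
    rw [hc d a, h5]

theorem Free3.mono {k m m' : ℕ} (h : Free3 k m) (hm : m' ≤ m) : Free3 k m' := by
  obtain ⟨c, hc, h⟩ := h
  refine ⟨fun a b => c (Fin.castLE hm a) (Fin.castLE hm b), fun a b => hc _ _, ?_⟩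
  intro a b d h1 h2 h3 h4 h5
  exact h _ _ _ (fun h' => h1 (Fin.castLE_injective hm h'))
    (fun h' => h2 (Fin.castLE_injective hm h')) (fun h' => h3 (Fin.castLE_injective hm h')) h4 h5

theorem free_of_set {V : Type*} {k : ℕ} (c : V → V → Fin k) (hc : ∀ a b, c a b = c b a)
    (U : Finset V) (h : ∀ a ∈ U, ∀ b ∈ U, ∀ d ∈ U, a ≠ b → b ≠ d → a ≠ d →
      c a b = c b d → c a b = c a d → False) : Free3 k U.card := by
  refine ⟨fun a b => c (U.equivFin.symm a) (U.equivFin.symm b), fun a b => hc _ _, ?_⟩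
  intro a b d h1 h2 h3 h4 h5
  have inj : ∀ a b : Fin U.card, a ≠ b → (U.equivFin.symm a : V) ≠ U.equivFin.symm b := by
    intro a b hab h'
    exact hab (U.equivFin.symm.injective (Subtype.ext h'))
  exact h _ (U.equivFin.symm a).2 _ (U.equivFin.symm b).2 _ (U.equivFin.symm d).2
    (inj _ _ h1) (inj _ _ h2) (inj _ _ h3) h4 h5

theorem free_step {k M : ℕ} (hk : 1 ≤ k) (hM : ∀ m, Free3 k m → m ≤ M) {m : ℕ}
    (h : Free3 (k + 1) m) : m ≤ (k + 1) * M + 1 := by
  classical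
  rcases m with _ | m
  · omega
  obtain ⟨c, hc, h⟩ := h
  let v : Fin (m + 1) := 0
  let N : Fin (k + 1) → Finset (Fin (m + 1)) := fun i => univ.filter (fun u => u ≠ v ∧ c v u = i)
  have hN : ∀ i, (N i).card ≤ M := by
    intro i
    obtain ⟨g, hg⟩ : ∃ g : Fin (k + 1) → Fin k, ∀ x, x ≠ i → i.succAbove (g x) = x := by
      refine ⟨fun x => if h : x ≠ i then (Fin.exists_succAbove_eq h).choose else ⟨0, hk⟩, ?_⟩
      intro x hx
      simp only
      rw [dif_pos hx]
      exact (Fin.exists_succAbove_eq hx).choose_spec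
    apply hM
    refine free_of_set (fun a b => g (c a b)) (fun a b => by rw [hc a b]) (N i) ?_
    intro a ha b hb d hd h1 h2 h3 h4 h5
    simp only [N, mem_filter, mem_univ, true_and] at ha hb hd
    have key : ∀ p r : Fin (m + 1), p ≠ v → c v p = i → r ≠ v → c v r = i → p ≠ r →
        c p r ≠ i := by
      intro p r q1 q2 q3 q4 q5 q6
      exact h v p r q1.symm q5 q3.symm (by rw [q2, q6]) (by rw [q2, q4])
    have e1 := key a b ha.1 ha.2 hb.1 hb.2 h1
    have e2 := key b d hb.1 hb.2 hd.1 hd.2 h2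
    have e3 := key a d ha.1 ha.2 hd.1 hd.2 h3
    refine h a b d h1 h2 h3 ?_ ?_
    · rw [← hg _ e1, ← hg _ e2]
      exact congrArg _ h4
    · rw [← hg _ e1, ← hg _ e3]
      exact congrArg _ h5
  have h1 : (univ.filter (fun u : Fin (m + 1) => u ≠ v)).card =
      ∑ i : Fin (k + 1), (N i).card := by
    rw [Finset.card_eq_sum_card_fiberwise (f := fun u => c v u) (t := univ)
      (fun p _ => mem_univ _)]
    refine Finset.sum_congr rfl fun i _ => ?_
    rw [Finset.filter_filter]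
  have h2 : (univ.filter (fun u : Fin (m + 1) => u ≠ v)).card = m := by
    rw [Finset.filter_ne', card_erase_of_mem (mem_univ _), card_univ, Fintype.card_fin]
    rfl
  have h3 : ∑ i : Fin (k + 1), (N i).card ≤ (k + 1) * M := by
    calc _ ≤ ∑ _i : Fin (k + 1), M := Finset.sum_le_sum fun i _ => hN i
      _ = _ := by rw [Finset.sum_const, card_univ, Fintype.card_fin, smul_eq_mul]
  omega

theorem free_one {m : ℕ} (h : Free3 1 m) : m ≤ 2 := by
  obtain ⟨c, hc, h⟩ := h
  by_contra hcon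
  push Not at hcon
  refine h ⟨0, by omega⟩ ⟨1, by omega⟩ ⟨2, by omega⟩ ?_ ?_ ?_ (Subsingleton.elim _ _)
    (Subsingleton.elim _ _)
  · simp
  · simp
  · simp

theorem free_bdd (k : ℕ) : ∃ M, ∀ m, Free3 (k + 1) m → m ≤ M := by
  induction k with
  | zero => exact ⟨2, fun m h => free_one h⟩
  | succ k ih =>
    obtain ⟨M, hM⟩ := ih
    exact ⟨(k + 1 + 1) * M + 1, fun m h => free_step (by omega) hM h⟩

theorem S3_nonempty {k : ℕ} (hk : 1 ≤ k) : (S3 k).Nonempty := by
  obtain ⟨k', rfl⟩ : ∃ k', k = k' + 1 := ⟨k - 1, by omega⟩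
  obtain ⟨M, hM⟩ := free_bdd k'
  refine ⟨M + 1, ?_⟩
  by_contra h
  have := hM _ (free_of_notMem h)
  omega

theorem lt_R3 {k m : ℕ} (hk : 1 ≤ k) (h : Free3 k m) : m < sInf (S3 k) := by
  by_contra hcon
  push Not at hcon
  exact notMem_of_free (h.mono hcon) (Nat.sInf_mem (S3_nonempty hk))

theorem R3_succ {k : ℕ} (hk : 1 ≤ k) :
    sInf (S3 (k + 1)) ≤ (k + 1) * (sInf (S3 k) - 1) + 2 := by
  by_contra hcon
  push Not at hcon
  have h1 : (k + 1) * (sInf (S3 k) - 1) + 2 ∉ S3 (k + 1) := Nat.notMem_of_lt_sInf hcon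
  have h2 := free_step hk (M := sInf (S3 k) - 1)
    (fun m hm => by have := lt_R3 hk hm; omega) (free_of_notMem h1)
  omega

end Pool.Agent.Lib.MP_bf4c0e_coT
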