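import Mathlib

/-!
Deletion method: a large subset that contains no member of two given families of sets.
-/

namespace Pool.Agent.Lib.MP_bf4c0e_coT

open Finset

variable {V : Type*} [Fintype V] [DecidableEq V]

theorem card_maps (S : Finset V) {q : ℕ} (z : Fin q) (hq : 0 < q) :
    ((univ.filter (fun φ : V → Fin q => ∀ v ∈ S, φ v = z)).card : ℝ) =
      (q : ℝ) ^ Fintype.card V / (q : ℝ) ^ S.card := by
  have h1 : univ.filter (fun φ : V → Fin q => ∀ v ∈ S, φ v = z) =
      Fintype.piFinset (fun v => if v ∈ S then ({z} : Finset (Fin q)) else univ) := by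
    ext φ
    simp only [mem_filter, mem_univ, true_and, Fintype.mem_piFinset]
    constructor
    · intro h v
      by_cases hv : v ∈ S
      · rw [if_pos hv, mem_singleton]; exact h v hv
      · rw [if_neg hv]; exact mem_univ _
    · intro h v hv
      have h2 := h v
      rw [if_pos hv, mem_singleton] at h2
      exact h2
  have h2 : ∀ v : V, (if v ∈ S then ({z} : Finset (Fin q)) else univ).card =
      if v ∈ S then 1 else q := by
    intro v
    by_cases hv : v ∈ S
    · rw [if_pos hv, if_pos hv, card_singleton]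
    · rw [if_neg hv, if_neg hv, card_univ, Fintype.card_fin]
  rw [h1, Fintype.card_piFinset, Finset.prod_congr rfl (fun v _ => h2 v), Finset.prod_ite,
    Finset.prod_const_one, one_mul, Finset.prod_const]
  have h3 : (univ.filter (fun v => v ∉ S)).card + S.card = Fintype.card V := by
    have h4 := Finset.card_filter_add_card_filter_not (s := (univ : Finset V)) (fun v => v ∈ S)
    rw [card_univ] at h4
    have h5 : univ.filter (fun v => v ∈ S) = S := by ext v; simp
    rw [h5] at h4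
    omega
  have hq' : (0 : ℝ) < q := by exact_mod_cast hq
  rw [eq_div_iff (by positivity), ← h3, pow_add]
  push_cast
  ring

theorem deletion (V0 : Finset V) (𝒜 ℬ : Finset (Finset V)) {a b q : ℕ} (hq : 0 < q)
    (ha : 0 < a) (hb : 0 < b) (hA : ∀ A ∈ 𝒜, A.card = a) (hB : ∀ B ∈ ℬ, B.card = b) :
    ∃ U ⊆ V0, (∀ A ∈ 𝒜, ¬ A ⊆ U) ∧ (∀ B ∈ ℬ, ¬ B ⊆ U) ∧
      (V0.card : ℝ) / q - 𝒜.card / q ^ a - ℬ.card / q ^ b ≤ U.card := by
  classical
  have hq' : (0 : ℝ) < q := by exact_mod_cast hq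
  obtain ⟨z, -⟩ : ∃ z : Fin q, True := ⟨⟨0, hq⟩, trivial⟩
  let P : Finset V → (V → Fin q) → Prop := fun S φ => ∀ v ∈ S, φ v = z
  let F : (V → Fin q) → ℝ := fun φ =>
    (∑ v ∈ V0, if P {v} φ then (1 : ℝ) else 0) - (∑ A ∈ 𝒜, if P A φ then (1 : ℝ) else 0) -
      (∑ B ∈ ℬ, if P B φ then (1 : ℝ) else 0)
  have hP : ∀ S : Finset V, (∑ φ : V → Fin q, if P S φ then (1 : ℝ) else 0) =
      (q : ℝ) ^ Fintype.card V / (q : ℝ) ^ S.card := by
    intro S
    rw [← card_maps S z hq, Finset.sum_boole]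
  have hsum : ∑ φ, F φ = ∑ _φ : V → Fin q,
      ((V0.card : ℝ) / q - 𝒜.card / q ^ a - ℬ.card / q ^ b) := by
    have e1 : ∑ φ : V → Fin q, (∑ v ∈ V0, if P {v} φ then (1 : ℝ) else 0) =
        V0.card * ((q : ℝ) ^ Fintype.card V / q) := by
      rw [Finset.sum_comm, Finset.sum_congr rfl (fun v _ => hP {v})]
      simp only [card_singleton, pow_one, Finset.sum_const, nsmul_eq_mul]
    have e2 : ∑ φ : V → Fin q, (∑ A ∈ 𝒜, if P A φ then (1 : ℝ) else 0) =
        𝒜.card * ((q : ℝ) ^ Fintype.card V / q ^ a) := by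
      rw [Finset.sum_comm, Finset.sum_congr rfl (fun A hA' => (hP A).trans (by rw [hA A hA']))]
      simp only [Finset.sum_const, nsmul_eq_mul]
    have e3 : ∑ φ : V → Fin q, (∑ B ∈ ℬ, if P B φ then (1 : ℝ) else 0) =
        ℬ.card * ((q : ℝ) ^ Fintype.card V / q ^ b) := by
      rw [Finset.sum_comm, Finset.sum_congr rfl (fun A hA' => (hP A).trans (by rw [hB A hA']))]
      simp only [Finset.sum_const, nsmul_eq_mul]
    simp only [F]
    rw [Finset.sum_sub_distrib, Finset.sum_sub_distrib, e1, e2, e3]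
    simp only [Finset.sum_const, nsmul_eq_mul, card_univ, Fintype.card_pi, Fintype.card_fin,
      Finset.prod_const]
    push_cast
    ring
  obtain ⟨φ, -, hφ⟩ := Finset.exists_le_of_sum_le (s := (univ : Finset (V → Fin q)))
    ⟨fun _ => z, mem_univ _⟩ hsum.symm.le
  let W : Finset V := V0.filter (fun v => φ v = z)
  let rep : Finset V → Finset V := fun A => if h : A.Nonempty then {h.choose} else ∅
  have hrep1 : ∀ A, (rep A).card ≤ 1 := by
    intro A
    simp only [rep]
    split_ifs with h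
    · rw [card_singleton]
    · rw [card_empty]; exact Nat.zero_le _
  have hrep2 : ∀ A : Finset V, 0 < A.card → ∃ v ∈ A, v ∈ rep A := by
    intro A hA'
    have h : A.Nonempty := card_pos.mp hA'
    refine ⟨h.choose, h.choose_spec, ?_⟩
    simp only [rep]
    rw [dif_pos h]
    exact mem_singleton_self _
  let DA : Finset V := (𝒜.filter (fun A => A ⊆ W)).biUnion rep
  let DB : Finset V := (ℬ.filter (fun B => B ⊆ W)).biUnion rep
  have hDA : (DA.card : ℝ) ≤ ∑ A ∈ 𝒜, if P A φ then (1 : ℝ) else 0 := by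
    have h1 : DA.card ≤ ∑ A ∈ 𝒜.filter (fun A => A ⊆ W), (rep A).card := card_biUnion_le
    have h2 : ∑ A ∈ 𝒜.filter (fun A => A ⊆ W), (rep A).card ≤
        (𝒜.filter (fun A => A ⊆ W)).card := by
      rw [card_eq_sum_ones]
      exact Finset.sum_le_sum fun A _ => hrep1 A
    have h3 : (𝒜.filter (fun A => A ⊆ W)).card ≤ (𝒜.filter (fun A => P A φ)).card := by
      refine card_le_card fun A hA' => ?_
      rw [mem_filter] at hA' ⊢
      exact ⟨hA'.1, fun v hv => (mem_filter.mp (hA'.2 hv)).2⟩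
    rw [Finset.sum_boole]
    exact_mod_cast h1.trans (h2.trans h3)
  have hDB : (DB.card : ℝ) ≤ ∑ B ∈ ℬ, if P B φ then (1 : ℝ) else 0 := by
    have h1 : DB.card ≤ ∑ A ∈ ℬ.filter (fun A => A ⊆ W), (rep A).card := card_biUnion_le
    have h2 : ∑ A ∈ ℬ.filter (fun A => A ⊆ W), (rep A).card ≤
        (ℬ.filter (fun A => A ⊆ W)).card := by
      rw [card_eq_sum_ones]
      exact Finset.sum_le_sum fun A _ => hrep1 A
    have h3 : (ℬ.filter (fun A => A ⊆ W)).card ≤ (ℬ.filter (fun A => P A φ)).card := by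
      refine card_le_card fun A hA' => ?_
      rw [mem_filter] at hA' ⊢
      exact ⟨hA'.1, fun v hv => (mem_filter.mp (hA'.2 hv)).2⟩
    rw [Finset.sum_boole]
    exact_mod_cast h1.trans (h2.trans h3)
  have hW : (W.card : ℝ) = ∑ v ∈ V0, if P {v} φ then (1 : ℝ) else 0 := by
    rw [Finset.sum_boole]
    congr 2
    ext v
    simp only [W, P, mem_filter, mem_singleton, forall_eq]
  refine ⟨W \ (DA ∪ DB), ?_, ?_, ?_, ?_⟩
  · intro v hv
    exact (mem_filter.mp (mem_sdiff.mp hv).1).1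
  · intro A hA' hAU
    have hAW : A ⊆ W := fun v hv => (mem_sdiff.mp (hAU hv)).1
    obtain ⟨v, hv1, hv2⟩ := hrep2 A (by rw [hA A hA']; exact ha)
    have h1 := (mem_sdiff.mp (hAU hv1)).2
    apply h1
    rw [mem_union]
    exact Or.inl (mem_biUnion.mpr ⟨A, mem_filter.mpr ⟨hA', hAW⟩, hv2⟩)
  · intro A hA' hAU
    have hAW : A ⊆ W := fun v hv => (mem_sdiff.mp (hAU hv)).1
    obtain ⟨v, hv1, hv2⟩ := hrep2 A (by rw [hB A hA']; exact hb)
    have h1 := (mem_sdiff.mp (hAU hv1)).2
    apply h1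
    rw [mem_union]
    exact Or.inr (mem_biUnion.mpr ⟨A, mem_filter.mpr ⟨hA', hAW⟩, hv2⟩)
  · have h1 : W.card ≤ (W \ (DA ∪ DB)).card + (DA ∪ DB).card := by
      have h2 := card_le_card (subset_union_left (s₁ := W) (s₂ := DA ∪ DB))
      rw [← sdiff_union_self_eq_union] at h2
      exact h2.trans (card_union_le _ _)
    have h2 : (DA ∪ DB).card ≤ DA.card + DB.card := card_union_le _ _
    have h3 : (W.card : ℝ) ≤ (W \ (DA ∪ DB)).card + (DA.card + DB.card) := by
      exact_mod_cast h1.trans (by omega)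
    simp only [F] at hφ
    rw [← hW] at hφ
    linarith

end Pool.Agent.Lib.MP_bf4c0e_coT
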