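import Mathlib
import Pool.Agent.Lib.MP_bf4c0e_coT.Count

/-!
Recolouring the needed edges of `B` with one additional colour.
-/

namespace Pool.Agent.Lib.MP_bf4c0e_coT

open Finset

variable {V : Type*} [Fintype V] [DecidableEq V] {k : ℕ}

theorem five {c : V → V → Fin k} {B : V → V → Prop}
    {U : Finset V} (hU : ∀ A ∈ badB c B, ¬ A ⊆ U) {a b v w w' : V} (hab : B a b) (hne : a ≠ b)
    (h1 : Tri c a v w) (h2 : Tri c b v w) (h3 : Tri c a b w') (h4 : ¬ Tri c a b v)
    (ha : a ∈ U) (hb : b ∈ U) (hv : v ∈ U) (hw : w ∈ U) (hw' : w' ∈ U) : False := by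
  classical
  have e1 : c a v = c b v := by rw [h1.2.2.2.2, h2.2.2.2.2]
  have e2 : c a b ≠ c a v := by
    intro h
    exact h4 ⟨hne, h2.1, h1.1, h, h.trans e1⟩
  have n1 : w' ≠ v := by
    rintro rfl
    exact h4 h3
  have n2 : w' ≠ w := by
    rintro rfl
    exact e2 (h3.2.2.2.1.trans h1.2.2.2.1.symm)
  refine hU {a, b, v, w, w'} ?_ ?_
  · unfold badB
    rw [mem_filter, mem_image]
    refine ⟨⟨⟨(a, b), ((v, w), w')⟩, ?_, rfl⟩, ?_⟩
    · rw [mem_sigma, mem_filter, mem_product, mem_wit]
      refine ⟨⟨mem_univ _, hab⟩, ?_, h3⟩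
      unfold stars
      rw [mem_filter]
      exact ⟨mem_univ _, h1, h2, e2, hne⟩
    · rw [card_insert_of_notMem, card_insert_of_notMem, card_insert_of_notMem,
        card_insert_of_notMem, card_singleton]
      · rw [mem_singleton]; exact n2.symm
      · rw [mem_insert, mem_singleton]; push Not
        exact ⟨h1.2.1, n1.symm⟩
      · rw [mem_insert, mem_insert, mem_singleton]; push Not
        exact ⟨h2.1, h2.2.2.1, h3.2.1⟩
      · rw [mem_insert, mem_insert, mem_insert, mem_singleton]; push Not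
        exact ⟨hne, h1.1, h1.2.2.1, h3.2.2.1⟩
  · intro t ht
    simp only [mem_insert, mem_singleton] at ht
    rcases ht with rfl | rfl | rfl | rfl | rfl <;> assumption

open Classical in
/-- The new colouring. -/
noncomputable def recol (c : V → V → Fin k) (B : V → V → Prop) (U : Finset V) (a b : V) :
    Fin (k + 1) :=
  if B a b ∧ ∃ w ∈ U, Tri c a b w then Fin.last k else (c a b).castSucc

theorem recol_symm {c : V → V → Fin k} {B : V → V → Prop} (hc : ∀ a b, c a b = c b a)
    (hB : IsHit c B) (U : Finset V) (a b : V) : recol c B U a b = recol c B U b a := by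
  have key : (B a b ∧ ∃ w ∈ U, Tri c a b w) ↔ (B b a ∧ ∃ w ∈ U, Tri c b a w) := by
    constructor
    · rintro ⟨h1, w, hw, h2⟩
      exact ⟨hB.symm _ _ h1, w, hw, h2.swap hc⟩
    · rintro ⟨h1, w, hw, h2⟩
      exact ⟨hB.symm _ _ h1, w, hw, h2.swap hc⟩
  unfold recol
  by_cases h : B a b ∧ ∃ w ∈ U, Tri c a b w
  · rw [if_pos h, if_pos (key.mp h)]
  · rw [if_neg h, if_neg (fun h' => h (key.mpr h')), hc a b]

omit [Fintype V] in
theorem recol_last {c : V → V → Fin k} {B : V → V → Prop} {U : Finset V} {a b : V}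
    (h : recol c B U a b = Fin.last k) : B a b ∧ ∃ w ∈ U, Tri c a b w := by
  unfold recol at h
  by_contra hcon
  rw [if_neg hcon] at h
  exact absurd h (Fin.castSucc_lt_last _).ne

omit [Fintype V] in
theorem recol_ne {c : V → V → Fin k} {B : V → V → Prop} {U : Finset V} {a b : V}
    (h : recol c B U a b ≠ Fin.last k) :
    recol c B U a b = (c a b).castSucc ∧ ¬ (B a b ∧ ∃ w ∈ U, Tri c a b w) := by
  unfold recol at h ⊢
  by_cases hcon : B a b ∧ ∃ w ∈ U, Tri c a b w
  · rw [if_pos hcon] at h; exact absurd rfl h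
  · rw [if_neg hcon]; exact ⟨rfl, hcon⟩

theorem recol_free {c : V → V → Fin k} {B : V → V → Prop} (hc : ∀ a b, c a b = c b a)
    (hB : IsHit c B) {V0 U : Finset V} (hU0 : U ⊆ V0) (hUA : ∀ A ∈ badA c B V0, ¬ A ⊆ U)
    (hUB : ∀ A ∈ badB c B, ¬ A ⊆ U) {x y z : V} (hx : x ∈ U) (hy : y ∈ U) (hz : z ∈ U)
    (hxy : x ≠ y) (hyz : y ≠ z) (hxz : x ≠ z)
    (h1 : recol c B U x y = recol c B U y z) (h2 : recol c B U x y = recol c B U x z) :
    False := by
  classical
  by_cases hl : recol c B U x y = Fin.last k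
  · obtain ⟨b1, w1, u1, t1⟩ := recol_last hl
    obtain ⟨b2, w2, u2, t2⟩ := recol_last (h1 ▸ hl)
    obtain ⟨b3, w3, u3, t3⟩ := recol_last (h2 ▸ hl)
    have hT : ¬ Tri c x y z := fun h => hB.noT x y z h b1 b2 b3
    have hT2 : ¬ Tri c y z x := fun h => hT ((h.rot hc).rot hc)
    have hT3 : ¬ Tri c x z y := fun h => hT ((h.swap hc).rot hc)
    have n1 : w1 ≠ z := by rintro rfl; exact hT t1
    have n2 : w2 ≠ x := by rintro rfl; exact hT2 t2
    have n3 : w3 ≠ y := by rintro rfl; exact hT3 t3
    by_cases q1 : w1 = w2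
    · subst q1
      -- the common vertex is y
      exact five hUB b3 hxz t1 (t2.swap hc) t3 hT3 hx hz hy u1 u3
    · by_cases q2 : w2 = w3
      · subst q2
        -- the common vertex is z
        exact five hUB b1 hxy t3 t2 t1 hT hx hy hz u2 u1
      · by_cases q3 : w1 = w3
        · subst q3
          -- the common vertex is x
          exact five hUB b2 hyz (t1.swap hc) (t3.swap hc) t2 hT2 hy hz hx u1 u2
        · refine hUA {x, y, z, w1, w2, w3} ?_ ?_
          · unfold badA
            rw [mem_filter, mem_image]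
            refine ⟨⟨⟨⟨x, (y, z)⟩, (w1, (w2, w3))⟩, ?_, rfl⟩, ?_⟩
            · rw [mem_sigma, mem_product, mem_product, mem_wit, mem_wit, mem_wit]
              refine ⟨?_, t1, t2, t3⟩
              unfold tri3
              rw [mem_sigma, mem_filter, mem_product, mem_nb, mem_nb]
              exact ⟨hU0 hx, ⟨b1, b3⟩, b2⟩
            · rw [card_insert_of_notMem, card_insert_of_notMem, card_insert_of_notMem,
                card_insert_of_notMem, card_insert_of_notMem, card_singleton]
              · rw [mem_singleton]; exact q2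
              · rw [mem_insert, mem_singleton]; push Not
                exact ⟨q1, q3⟩
              · rw [mem_insert, mem_insert, mem_singleton]; push Not
                exact ⟨n1.symm, t2.2.1, t3.2.1⟩
              · rw [mem_insert, mem_insert, mem_insert, mem_singleton]; push Not
                exact ⟨hyz, t1.2.1, t2.2.2.1, n3.symm⟩
              · rw [mem_insert, mem_insert, mem_insert, mem_insert, mem_singleton]; push Not
                exact ⟨hxy, hxz, t1.2.2.1, n2.symm, t3.2.2.1⟩
          · intro t ht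
            simp only [mem_insert, mem_singleton] at ht
            rcases ht with rfl | rfl | rfl | rfl | rfl | rfl <;> assumption
  · obtain ⟨e1, f1⟩ := recol_ne hl
    obtain ⟨e2, f2⟩ := recol_ne (h1 ▸ hl)
    obtain ⟨e3, f3⟩ := recol_ne (h2 ▸ hl)
    have g1 : c x y = c y z := by
      rw [e1, e2] at h1
      exact Fin.castSucc_injective _ h1
    have g2 : c x y = c x z := by
      rw [e1, e3] at h2
      exact Fin.castSucc_injective _ h2
    have hT : Tri c x y z := ⟨hxy, hyz, hxz, g2, g1⟩
    rcases hB.hit x y z hT with h | h | h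
    · exact f1 ⟨h, z, hz, hT⟩
    · exact f2 ⟨h, x, hx, hT.rot hc⟩
    · exact f3 ⟨h, y, hy, (hT.swap hc).rot hc⟩

end Pool.Agent.Lib.MP_bf4c0e_coT
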