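import Mathlib
import Pool.Agent.Lib.MP_bf4c0e_coT.Recol
import Pool.Agent.Lib.MP_bf4c0e_coT.Rand
import Pool.Agent.Lib.MP_bf4c0e_coT.Ram

/-!
Comparison of the multicolour Ramsey numbers of the pentagon and of the triangle.
-/

namespace Pool.Agent.Lib.MP_bf4c0e_coT

open Finset

theorem num1 {a b q N A B k s : ℝ} (ha : 0 < a) (hb : 1 ≤ b) (hk : k = a ^ 2) (hs : s = b ^ 10)
    (hN : N = b ^ 20) (hq : 4 * (a * b ^ 3) ≤ q)
    (hA : A ≤ 8 * (N * (k * (2 * (2 * (a * b ^ 5)) ^ 3))))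
    (hB : B ≤ 4 * k * (k * (2 * s ^ 3))) :
    N / (3 * q) ≤ N / 2 / q - A / q ^ 6 - B / q ^ 5 := by
  have hb0 : 0 < b := by linarith
  have hq0 : 0 < q := lt_of_lt_of_le (by positivity) hq
  have hN0 : 0 < N := by rw [hN]; positivity
  have h5 : (4 * (a * b ^ 3)) ^ 5 ≤ q ^ 5 := pow_le_pow_left₀ (by positivity) hq 5
  have h4 : (4 * (a * b ^ 3)) ^ 4 ≤ q ^ 4 := pow_le_pow_left₀ (by positivity) hq 4
  have hA' : A / q ^ 6 ≤ N / (8 * q) := by
    rw [div_le_div_iff₀ (by positivity) (by positivity)]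
    have e1 : A * (8 * q) ≤ 8 * (N * (k * (2 * (2 * (a * b ^ 5)) ^ 3))) * (8 * q) :=
      mul_le_mul_of_nonneg_right hA (by positivity)
    have e2 : 8 * (N * (k * (2 * (2 * (a * b ^ 5)) ^ 3))) * (8 * q) =
        N * q * (4 * (a * b ^ 3)) ^ 5 := by rw [hk]; ring
    have e3 : N * q * (4 * (a * b ^ 3)) ^ 5 ≤ N * q * q ^ 5 :=
      mul_le_mul_of_nonneg_left h5 (by positivity)
    calc _ ≤ _ := e1
      _ = _ := e2
      _ ≤ _ := e3
      _ = _ := by ring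
  have hB' : B / q ^ 5 ≤ N / (32 * q) := by
    rw [div_le_div_iff₀ (by positivity) (by positivity)]
    have e1 : B * (32 * q) ≤ 4 * k * (k * (2 * s ^ 3)) * (32 * q) :=
      mul_le_mul_of_nonneg_right hB (by positivity)
    have e2 : 4 * k * (k * (2 * s ^ 3)) * (32 * q) = N * q * (256 * (a ^ 4 * b ^ 10)) := by
      rw [hk, hs, hN]; ring
    have e3 : a ^ 4 * b ^ 10 ≤ a ^ 4 * b ^ 12 :=
      mul_le_mul_of_nonneg_left (pow_le_pow_right₀ hb (by norm_num)) (by positivity)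
    have e4 : N * q * (256 * (a ^ 4 * b ^ 10)) ≤ N * q * q ^ 4 := by
      refine mul_le_mul_of_nonneg_left ?_ (by positivity)
      calc 256 * (a ^ 4 * b ^ 10) ≤ 256 * (a ^ 4 * b ^ 12) := by linarith
        _ = (4 * (a * b ^ 3)) ^ 4 := by ring
        _ ≤ _ := h4
    calc _ ≤ _ := e1
      _ = _ := e2
      _ ≤ _ := e4
      _ = _ := by ring
  have e : N / 2 / q - N / (8 * q) - N / (32 * q) = 11 / 32 * (N / q) := by
    field_simp; ring
  have e' : N / (3 * q) = 1 / 3 * (N / q) := by field_simp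
  have hNq : 0 < N / q := by positivity
  rw [e']
  linarith

theorem core {k n : ℕ} (hk : 1 ≤ k) (hn : 1 ≤ n) (c : Fin n → Fin n → Fin k)
    (hc : ∀ a b, c a b = c b a) (h5 : No5 c) :
    ∃ m : ℕ, Free3 (k + 1) m ∧
      (n : ℝ) ≤ 15 * (Real.sqrt k * ((n : ℝ) ^ (1 / 20 : ℝ)) ^ 3) * m := by
  obtain ⟨B, hB⟩ := exists_hit hc h5
  have hk' : (1 : ℝ) ≤ k := by exact_mod_cast hk
  have hn' : (1 : ℝ) ≤ n := by exact_mod_cast hn
  obtain ⟨a, ha⟩ : ∃ a, a = Real.sqrt k := ⟨_, rfl⟩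
  obtain ⟨b, hb⟩ : ∃ b, b = (n : ℝ) ^ (1 / 20 : ℝ) := ⟨_, rfl⟩
  rw [← ha, ← hb]
  have ha2 : (k : ℝ) = a ^ 2 := by rw [ha, Real.sq_sqrt (by linarith)]
  have ha1 : 1 ≤ a := by rw [ha]; exact Real.one_le_sqrt.mpr hk'
  have hb1 : 1 ≤ b := by rw [hb]; exact Real.one_le_rpow hn' (by norm_num)
  have hb20 : (n : ℝ) = b ^ 20 := by
    rw [hb, ← Real.rpow_natCast, ← Real.rpow_mul (by linarith)]
    norm_num
  have hs : Real.sqrt n = b ^ 10 := by
    rw [hb20, show b ^ 20 = (b ^ 10) ^ 2 by ring]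
    exact Real.sqrt_sq (by positivity)
  have hab : 1 ≤ a * b ^ 3 := by
    have := one_le_pow₀ hb1 (n := 3)
    nlinarith
  obtain ⟨q, hq⟩ : ∃ q : ℕ, q = ⌈4 * (a * b ^ 3)⌉₊ := ⟨_, rfl⟩
  have hq1 : 4 * (a * b ^ 3) ≤ q := by rw [hq]; exact Nat.le_ceil _
  have hq2 : (q : ℝ) ≤ 5 * (a * b ^ 3) := by
    have := Nat.ceil_lt_add_one (show 0 ≤ 4 * (a * b ^ 3) by positivity)
    rw [← hq] at this
    linarith
  have hq0 : 0 < q := by
    have : (0 : ℝ) < q := by linarith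
    exact_mod_cast this
  obtain ⟨D, hD⟩ : ∃ D : ℝ, D = 4 * k * Real.sqrt (Fintype.card (Fin n)) := ⟨_, rfl⟩
  have hDs : Real.sqrt D = 2 * (a * b ^ 5) := by
    rw [hD, Fintype.card_fin, hs, ha2, show 4 * a ^ 2 * b ^ 10 = (2 * (a * b ^ 5)) ^ 2 by ring]
    exact Real.sqrt_sq (by positivity)
  have hV0 := low_card hc hB hk (by rw [Fintype.card_fin]; exact hn)
  rw [← hD] at hV0
  have hA := badA_card hc hB D
  have hBB := badB_card hc h5 hB
  rw [Fintype.card_fin] at hV0 hA hBB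
  rw [hDs] at hA
  obtain ⟨U, hU0, hUA, hUB, hU⟩ := deletion (low B D) (badA c B (low B D)) (badB c B) hq0
    (a := 6) (b := 5) (by norm_num) (by norm_num)
    (fun A hA' => by unfold badA at hA'; exact (mem_filter.mp hA').2)
    (fun A hA' => by classical unfold badB at hA'; exact (mem_filter.mp hA').2)
  have hnum := num1 (a := a) (b := b) (q := q) (N := n) (k := k) (s := Real.sqrt n)
    (by linarith) hb1 ha2 hs hb20 hq1 hA hBB
  refine ⟨U.card, ?_, ?_⟩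
  · refine free_of_set (recol c B U) (recol_symm hc hB U) U ?_
    intro x hx y hy z hz h1 h2 h3 h4 h6
    exact recol_free hc hB hU0 hUA hUB hx hy hz h1 h2 h3 h4 h6
  · have hq' : (0 : ℝ) < q := by exact_mod_cast hq0
    have h1 : (n : ℝ) / 2 / q ≤ ((low B D).card : ℝ) / q :=
      div_le_div_of_nonneg_right hV0 hq'.le
    have h2 : (n : ℝ) / (3 * q) ≤ U.card := by linarith
    rw [div_le_iff₀ (by positivity)] at h2
    have h3 : (0 : ℝ) ≤ U.card := Nat.cast_nonneg _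
    nlinarith

end Pool.Agent.Lib.MP_bf4c0e_coT
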