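import Mathlib
import Pool.Agent.Lib.MP_bf4c0e_co.Recursion
import Pool.Agent.Lib.MP_bf4c0e_coT.Main

/-!
The bound for the ratio of the multicolour Ramsey numbers of the pentagon and of the triangle.
-/

namespace Pool.Agent.Lib.MP_bf4c0e_coT

open Finset

theorem no5_of_notMem {k m : ℕ} (h : m ∉ S5 k) : ∃ c : Fin m → Fin m → Fin k,
    (∀ a b, c a b = c b a) ∧ No5 c := by
  unfold S5 at h
  rw [Set.mem_ofPred_eq] at h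
  push Not at h
  obtain ⟨c, hc, h⟩ := h
  refine ⟨c, hc, ?_⟩
  intro a b d e f h1 h2 h3 h4 h5 h6 h7 h8 h9 h10 q1 q2 q3 q4
  obtain ⟨i, hi⟩ := h ![a, b, d, e, f] (by
    intro i j hij
    fin_cases i <;> fin_cases j <;> simp_all)
  apply hi
  fin_cases i
  · rfl
  · exact q1.symm
  · exact (q1.trans q2).symm
  · exact ((q1.trans q2).trans q3).symm
  · exact (((q1.trans q2).trans q3).trans q4).symm

theorem S5_le {k : ℕ} (hk : 1 ≤ k) :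
    ((sInf (S5 k) : ℕ) : ℝ) ≤ 5 * (k : ℝ) * Real.sqrt ((2 : ℝ) ^ k * (k.factorial : ℝ)) := by
  have hmem : ⌊5 * (k : ℝ) * MP_bf4c0e_co.den k⌋₊ ∈ S5 k := by
    intro c hc
    refine MP_bf4c0e_co.exists_pentagon hk ?_ c hc
    have := Nat.lt_floor_add_one (5 * (k : ℝ) * MP_bf4c0e_co.den k)
    linarith
  have h1 := Nat.sInf_le hmem
  have h2 : (0 : ℝ) ≤ 5 * (k : ℝ) * MP_bf4c0e_co.den k :=
    mul_nonneg (by positivity) (MP_bf4c0e_co.den_nonneg k)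
  calc _ ≤ ((⌊5 * (k : ℝ) * MP_bf4c0e_co.den k⌋₊ : ℕ) : ℝ) := by exact_mod_cast h1
    _ ≤ 5 * (k : ℝ) * MP_bf4c0e_co.den k := Nat.floor_le h2
    _ = _ := rfl

theorem S5_nonempty {k : ℕ} (hk : 1 ≤ k) : (S5 k).Nonempty := by
  refine ⟨⌊5 * (k : ℝ) * MP_bf4c0e_co.den k⌋₊, ?_⟩
  intro c hc
  refine MP_bf4c0e_co.exists_pentagon hk ?_ c hc
  have := Nat.lt_floor_add_one (5 * (k : ℝ) * MP_bf4c0e_co.den k)
  linarith

theorem two_le_S5 {k : ℕ} (hk : 1 ≤ k) : 2 ≤ sInf (S5 k) := by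
  by_contra hcon
  push Not at hcon
  have h1 := Nat.sInf_mem (S5_nonempty hk)
  obtain ⟨m, hm⟩ : ∃ m, m = sInf (S5 k) := ⟨_, rfl⟩
  rw [← hm] at h1 hcon
  obtain ⟨f, hf, -⟩ := h1 (fun _ _ => ⟨0, hk⟩) (fun _ _ => rfl)
  have h2 := Fintype.card_le_of_injective f hf
  rw [Fintype.card_fin, Fintype.card_fin] at h2
  omega

theorem ratio1 {k : ℕ} (hk : 1 ≤ k) :
    ((sInf (S5 k) : ℕ) : ℝ) ≤ 60 * (k : ℝ) ^ (3 / 2 : ℝ) *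
      ((sInf (S5 k) : ℕ) : ℝ) ^ (3 / 20 : ℝ) * ((sInf (S3 k) : ℕ) : ℝ) := by
  obtain ⟨R, hR⟩ : ∃ R, R = sInf (S5 k) := ⟨_, rfl⟩
  have hR2 : 2 ≤ R := by rw [hR]; exact two_le_S5 hk
  obtain ⟨n, hn⟩ : ∃ n, R = n + 1 := ⟨R - 1, by omega⟩
  have hn1 : 1 ≤ n := by omega
  have hnm : n ∉ S5 k := Nat.notMem_of_lt_sInf (by omega)
  obtain ⟨c, hc, h5⟩ := no5_of_notMem hnm
  obtain ⟨m, hm, hnm'⟩ := core hk hn1 c hc h5
  rw [← hR]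
  have hk' : (1 : ℝ) ≤ k := by exact_mod_cast hk
  have hn' : (1 : ℝ) ≤ n := by exact_mod_cast hn1
  obtain ⟨T, hT⟩ : ∃ T, T = sInf (S3 k) := ⟨_, rfl⟩
  have hT1 : 1 ≤ T := by
    rw [hT]
    by_contra hcon
    push Not at hcon
    have h1 := Nat.sInf_mem (S3_nonempty hk)
    have h2 : sInf (S3 k) = 0 := by omega
    rw [h2] at h1
    obtain ⟨f, -, -⟩ := h1 (fun a _ => a.elim0) (fun a _ => a.elim0)
    exact (f 0).elim0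
  rw [← hT]
  have h1 := lt_R3 (by omega) hm
  have h2 := R3_succ hk
  rw [← hT] at h2
  have h3 : m ≤ (k + 1) * (T - 1) + 1 := by omega
  have h4 : m ≤ 2 * k * T := by
    obtain ⟨t, rfl⟩ : ∃ t, T = t + 1 := ⟨T - 1, by omega⟩
    rw [Nat.add_sub_cancel] at h3
    nlinarith
  have h5' : (m : ℝ) ≤ 2 * k * T := by exact_mod_cast h4
  have hb : ((n : ℝ) ^ (1 / 20 : ℝ)) ^ 3 = (n : ℝ) ^ (3 / 20 : ℝ) := by
    rw [← Real.rpow_natCast, ← Real.rpow_mul (by linarith)]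
    norm_num
  have hnR : (n : ℝ) ≤ R := by rw [hn]; push_cast; linarith
  have hb2 : (n : ℝ) ^ (3 / 20 : ℝ) ≤ (R : ℝ) ^ (3 / 20 : ℝ) :=
    Real.rpow_le_rpow (by linarith) hnR (by norm_num)
  have hks : (k : ℝ) ^ (3 / 2 : ℝ) = k * Real.sqrt k := by
    rw [Real.sqrt_eq_rpow, show (3 / 2 : ℝ) = 1 + 1 / 2 by norm_num,
      Real.rpow_add (by linarith), Real.rpow_one]
  rw [hb] at hnm'
  have hs0 : 0 ≤ Real.sqrt k := Real.sqrt_nonneg _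
  have hb0 : (0 : ℝ) ≤ (n : ℝ) ^ (3 / 20 : ℝ) := Real.rpow_nonneg (by linarith) _
  have hT0 : (0 : ℝ) ≤ T := Nat.cast_nonneg _
  have h6 : (n : ℝ) ≤ 15 * (Real.sqrt k * (R : ℝ) ^ (3 / 20 : ℝ)) * (2 * k * T) := by
    refine hnm'.trans ?_
    refine mul_le_mul ?_ h5' (Nat.cast_nonneg _) (by positivity)
    refine mul_le_mul_of_nonneg_left ?_ (by norm_num)
    exact mul_le_mul_of_nonneg_left hb2 hs0
  have h7 : (R : ℝ) ≤ 2 * n := by rw [hn]; push_cast; linarith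
  rw [hks]
  calc (R : ℝ) ≤ 2 * n := h7
    _ ≤ 2 * (15 * (Real.sqrt k * (R : ℝ) ^ (3 / 20 : ℝ)) * (2 * k * T)) := by linarith
    _ = _ := by ring

theorem ratio2 {k : ℕ} (hk : 1 ≤ k) :
    60 * (k : ℝ) ^ (3 / 2 : ℝ) * ((sInf (S5 k) : ℕ) : ℝ) ^ (3 / 20 : ℝ) ≤
      80 * (k : ℝ) ^ 2 * ((2 : ℝ) ^ k * (k.factorial : ℝ)) ^ (3 / 40 : ℝ) := by
  have hk' : (1 : ℝ) ≤ k := by exact_mod_cast hk
  obtain ⟨X, hX⟩ : ∃ X : ℝ, X = (2 : ℝ) ^ k * (k.factorial : ℝ) := ⟨_, rfl⟩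
  have hX0 : 0 ≤ X := by rw [hX]; positivity
  have h1 := S5_le hk
  rw [← hX] at h1 ⊢
  have h2 : ((sInf (S5 k) : ℕ) : ℝ) ^ (3 / 20 : ℝ) ≤
      (5 * (k : ℝ) * Real.sqrt X) ^ (3 / 20 : ℝ) :=
    Real.rpow_le_rpow (Nat.cast_nonneg _) h1 (by norm_num)
  have h3 : (5 * (k : ℝ) * Real.sqrt X) ^ (3 / 20 : ℝ) =
      (5 : ℝ) ^ (3 / 20 : ℝ) * (k : ℝ) ^ (3 / 20 : ℝ) * X ^ (3 / 40 : ℝ) := by
    rw [Real.mul_rpow (by positivity) (Real.sqrt_nonneg _), Real.mul_rpow (by norm_num)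
      (by linarith), Real.sqrt_eq_rpow, ← Real.rpow_mul hX0]
    norm_num
  have h4 : (5 : ℝ) ^ (3 / 20 : ℝ) ≤ 4 / 3 := by
    have h5 : (5 : ℝ) ^ (3 / 20 : ℝ) = ((5 : ℝ) ^ (3 : ℝ)) ^ (1 / 20 : ℝ) := by
      rw [← Real.rpow_mul (by norm_num)]; norm_num
    have h6 : ((4 / 3 : ℝ) ^ (20 : ℝ)) ^ (1 / 20 : ℝ) = 4 / 3 := by
      rw [← Real.rpow_mul (by norm_num)]; norm_num
    rw [h5, ← h6]
    refine Real.rpow_le_rpow (by positivity) ?_ (by norm_num)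
    rw [show (3 : ℝ) = ((3 : ℕ) : ℝ) by norm_num, Real.rpow_natCast,
      show (20 : ℝ) = ((20 : ℕ) : ℝ) by norm_num, Real.rpow_natCast]
    norm_num
  have h5 : (k : ℝ) ^ (3 / 2 : ℝ) * (k : ℝ) ^ (3 / 20 : ℝ) ≤ (k : ℝ) ^ 2 := by
    rw [← Real.rpow_add (by linarith), ← Real.rpow_natCast]
    exact Real.rpow_le_rpow_of_exponent_le hk' (by norm_num)
  have hX1 : 0 ≤ X ^ (3 / 40 : ℝ) := Real.rpow_nonneg hX0 _
  have hk1 : 0 ≤ (k : ℝ) ^ (3 / 2 : ℝ) := Real.rpow_nonneg (by linarith) _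
  have hk2 : 0 ≤ (k : ℝ) ^ (3 / 20 : ℝ) := Real.rpow_nonneg (by linarith) _
  calc 60 * (k : ℝ) ^ (3 / 2 : ℝ) * ((sInf (S5 k) : ℕ) : ℝ) ^ (3 / 20 : ℝ)
      ≤ 60 * (k : ℝ) ^ (3 / 2 : ℝ) *
        ((5 : ℝ) ^ (3 / 20 : ℝ) * (k : ℝ) ^ (3 / 20 : ℝ) * X ^ (3 / 40 : ℝ)) := by
        rw [← h3]
        exact mul_le_mul_of_nonneg_left h2 (by positivity)
    _ = (60 * (5 : ℝ) ^ (3 / 20 : ℝ)) * ((k : ℝ) ^ (3 / 2 : ℝ) * (k : ℝ) ^ (3 / 20 : ℝ)) *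
        X ^ (3 / 40 : ℝ) := by ring
    _ ≤ 80 * (k : ℝ) ^ 2 * X ^ (3 / 40 : ℝ) := by
        refine mul_le_mul_of_nonneg_right ?_ hX1
        refine mul_le_mul (by linarith) h5 (by positivity) (by norm_num)

end Pool.Agent.Lib.MP_bf4c0e_coT
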